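import Pool.Agent.Helper20.MC.Sharp4
import Pool.Agent.Helper20.EK.K13

/-!
# ME4: few models of a monadic second-order sentence give families of bounded size
-/

set_option autoImplicit false

namespace Pool.Agent.Helper53.AJ

open FirstOrder Pool.Agent.Helper20.Spectra Pool.Agent.Helper58.QD Pool.Agent.Helper14.SS
open Pool.Agent.Helper31.QD (Au qd)
open Pool.Agent.Helper40.MCM
open Pool.Agent.Helper6.MC (FamR lam lt_two_lam two_pow_le)
open Pool.Agent.Helper12.EK (FamR_card_le)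

variable {S : Type} {ar : S → ℕ}

/-- every large model has many blocks of bounded size -/
theorem bounded_famM {r c : ℕ} (φ : SFm (RelLang S ar) 0 0)
    (hrem : ∀ (n q t : ℕ) (R : Interp S ar (Fin n)), SatM φ R → FamR R (q + 1) t →
      2 ^ (c * (t + 1)) ≤ q → ∃ n', n' + t = n ∧ ∃ R' : Interp S ar (Fin n'), SatM φ R' ∧
        ∀ t' Q, Q * t' + r < q → FamR R' Q t' → FamR R Q t')
    {n₀ : ℕ} (hfam : ∀ n, n₀ ≤ n → ∀ R : Interp S ar (Fin n), SatM φ R →
      ∃ t, 1 ≤ t ∧ FamR R (2 ^ ((c + 2) * t) * lam n ^ 2) t) :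
    ∃ K, 1 ≤ K ∧ 2 ^ c ≤ K ∧ ∃ n₁, ∀ n, n₁ ≤ n → ∀ R : Interp S ar (Fin n), SatM φ R →
      ∃ t, 1 ≤ t ∧ t ≤ K ∧ FamR R (2 ^ ((c + 2) * t) * (4 * K + r + 10)) t := by
  obtain ⟨P, hP⟩ : ∃ P, P = 2 ^ c := ⟨_, rfl⟩
  rw [← hP]
  obtain ⟨K, hK⟩ : ∃ K, K = n₀ + r + c + 10 + P := ⟨_, rfl⟩
  refine ⟨K, by omega, by omega, 2 ^ ((c + 2) * K), fun n => ?_⟩
  have hKn : K < 2 ^ ((c + 2) * K) :=
    lt_of_lt_of_le Nat.lt_two_pow_self (Nat.pow_le_pow_right (by norm_num) (Nat.le_mul_of_pos_left K (by omega)))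
  induction n using Nat.strong_induction_on with
  | _ n ih =>
    intro hn R hR
    have hl : (c + 2) * K < lam n := (Nat.pow_lt_pow_iff_right (by norm_num : 1 < 2)).1
      (hn.trans_lt (lt_two_lam n))
    have hl2 : 2 * K ≤ lam n := by
      have : 2 * K ≤ (c + 2) * K := Nat.mul_le_mul_right _ (by omega)
      omega
    have hl3 : 4 * (K * K) ≤ lam n ^ 2 := by
      calc 4 * (K * K) = (2 * K) ^ 2 := by ring
        _ ≤ lam n ^ 2 := Nat.pow_le_pow_left hl2 2
    have hKK : 10 * K ≤ K * K := Nat.mul_le_mul_right _ (by omega)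
    have hKK2 : K * (r + 10) ≤ K * K := Nat.mul_le_mul_left _ (by omega)
    obtain ⟨t, ht1, hF⟩ := hfam n (by omega) R hR
    rcases Nat.lt_or_ge K t with htK | htK
    · -- remove a block
      have hcard := FamR_card_le hF
      obtain ⟨X, hX⟩ : ∃ X, X = 2 ^ ((c + 2) * t) := ⟨_, rfl⟩
      rw [← hX] at hF hcard
      have hX1 : 1 ≤ X := by rw [hX]; exact Nat.one_le_two_pow
      have hl4 : 100 ≤ lam n ^ 2 := by omega
      obtain ⟨q, hq⟩ : ∃ q, X * lam n ^ 2 = q + 1 := ⟨X * lam n ^ 2 - 1, by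
        have : 1 ≤ X * lam n ^ 2 := Nat.mul_pos hX1 (by omega)
        omega⟩
      have hq2 : X + 1 ≤ X * lam n ^ 2 := by
        calc X + 1 ≤ X + X := by omega
          _ = X * 2 := by ring
          _ ≤ X * lam n ^ 2 := Nat.mul_le_mul_left _ (by omega)
      rw [hq] at hF hcard
      obtain ⟨n', hn', R', hR', hlift⟩ := hrem n q t R hR hF (by
        have h1 : 2 ^ (c * (t + 1)) ≤ X := by
          rw [hX]
          refine Nat.pow_le_pow_right (by norm_num) ?_
          have e1 : c * (t + 1) = c * t + c := by ring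
          have e2 : (c + 2) * t = c * t + 2 * t := by ring
          omega
        omega)
      have h2 : (q + 1) * t ≤ n := hcard
      have h3 : X + t ≤ n := by
        refine le_trans ?_ h2
        rw [← hq]
        calc X + t ≤ X * t + X * t := Nat.add_le_add (Nat.le_mul_of_pos_right X ht1)
              (Nat.le_mul_of_pos_left t hX1)
          _ = X * 2 * t := by ring
          _ ≤ X * lam n ^ 2 * t := Nat.mul_le_mul_right _ (Nat.mul_le_mul_left _ (by omega))
      have h4 : 2 ^ ((c + 2) * K) * 4 ≤ X := by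
        rw [hX, show (4 : ℕ) = 2 ^ 2 by norm_num, ← pow_add]
        refine Nat.pow_le_pow_right (by norm_num) ?_
        calc (c + 2) * K + 2 ≤ (c + 2) * K + (c + 2) := by omega
          _ = (c + 2) * (K + 1) := by ring
          _ ≤ (c + 2) * t := Nat.mul_le_mul_left _ (by omega)
      obtain ⟨t', ht1', ht2', hF'⟩ := ih n' (by omega) (by omega) R' hR'
      refine ⟨t', ht1', ht2', hlift t' _ ?_ hF'⟩
      have h5 : 2 ^ ((c + 2) * t') ≤ 2 ^ ((c + 2) * K) :=
        Nat.pow_le_pow_right (by norm_num) (Nat.mul_le_mul_left _ ht2')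
      obtain ⟨Y, hY⟩ : ∃ Y, Y = 2 ^ ((c + 2) * K) := ⟨_, rfl⟩
      rw [← hY] at h4 h5 hKn
      have h6 : 2 ^ ((c + 2) * t') * (4 * K + r + 10) * t' ≤ Y * (5 * (K * K)) := by
        calc 2 ^ ((c + 2) * t') * (4 * K + r + 10) * t' ≤ Y * (4 * K + r + 10) * K :=
              Nat.mul_le_mul (Nat.mul_le_mul_right _ h5) ht2'
          _ = Y * (4 * (K * K) + K * (r + 10)) := by ring
          _ ≤ Y * (5 * (K * K)) := Nat.mul_le_mul_left _ (by omega)
      have h7 : Y * (16 * (K * K)) ≤ q + 1 := by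
        rw [← hq]
        calc Y * (16 * (K * K)) = (Y * 4) * (4 * (K * K)) := by ring
          _ ≤ X * lam n ^ 2 := Nat.mul_le_mul h4 hl3
      have h8 : Y * (5 * (K * K)) + Y * (11 * (K * K)) = Y * (16 * (K * K)) := by ring
      have h9 : 11 * (K * K) ≤ Y * (11 * (K * K)) := Nat.le_mul_of_pos_left _ (by omega)
      omega
    · exact ⟨t, ht1, htK, hF.fewer (Nat.mul_le_mul_left _ (by omega))⟩

/-- the number of classes is bounded, the number of blocks depends on their size -/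
theorem cls_bddV {r k N n₀ : ℕ} (hr : ∀ s, ar s ≤ r) (hN : r + 2 * k + 2 ≤ N)
    (P : ∀ V : Type, Interp S ar V → Prop) (nd : ℕ → ℕ) (hnd : Monotone nd)
    (hfam : ∀ (V : Type) (R : Interp S ar V), Finite V → P V R → n₀ ≤ Nat.card V →
      ∃ t, 1 ≤ t ∧ t ≤ k ∧ ∃ q, N ≤ q ∧ nd t ≤ q ∧ ∃ u : Fin q × Fin t → V, Hm R u)
    (hdown : ∀ (V : Type) (R : Interp S ar V), Finite V → P V R → ∀ q t : ℕ, nd t ≤ q →
      ∀ u : Fin q × Fin t → V, Hm R u → ∀ i, P (off u i) (rs R (off u i)))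
    (V : Type) (R : Interp S ar V) (hV : Finite V) (hP : P V R) :
    Nat.card (Quot (Rl R k N)) ≤ n₀ := by
  have key : ∀ (m : ℕ) (V : Type) (R : Interp S ar V), Finite V → Nat.card V = m → P V R →
      Nat.card (Quot (Rl R k N)) ≤ n₀ := by
    intro m
    induction m using Nat.strong_induction_on with
    | _ m ih =>
      intro V R hV hm hP
      by_cases h1 : Nat.card V ≤ n₀
      · exact (Nat.card_le_card_of_surjective (Quot.mk (Rl R k N)) Quot.exists_rep).trans h1
      · obtain ⟨t, ht1, htk, q, hq1, hq2, u, hu⟩ := hfam V R hV hP (by omega)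
        obtain ⟨t', e, he, h2, h3, h4⟩ := irr_of hu ht1
        set u' : Fin q × Fin t' → V := fun p => u (p.1, e p.2) with hu'
        have hbig : Big R k N u' := ⟨h4, h3.trans htk, hq1⟩
        have i : Fin q := ⟨0, by omega⟩
        have hP' := hdown V R hV hP q t' ((hnd h3).trans hq2) u' h4.1 i
        have hlt : Nat.card (off u' i) < m := by
          rw [← hm]
          have h5 := Fintype.ofFinite V
          have h6 := Fintype.ofFinite (off u' i)
          rw [Nat.card_eq_fintype_card, Nat.card_eq_fintype_card]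
          refine Fintype.card_lt_of_injective_of_notMem (fun z : off u' i => (z : V))
            Subtype.val_injective (b := u' (i, ⟨0, h2⟩)) ?_
          rintro ⟨z, hz⟩
          exact z.2 ⟨0, h2⟩ hz.symm
        exact (cls_le hr (by omega) hbig i).trans
          (ih _ hlt _ _ Subtype.finite rfl hP')
  exact key _ V R hV rfl hP

/-- families with many blocks in all large models give `FamBdd` -/
theorem famBdd_of_fam [Finite S] {r c : ℕ} (har : ∀ s, ar s ≤ r) (φ : SFm (RelLang S ar) 0 0)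
    (hrem : ∀ (n q t : ℕ) (R : Interp S ar (Fin n)), SatM φ R → FamR R (q + 1) t →
      2 ^ (c * (t + 1)) ≤ q → ∃ n', n' + t = n ∧ ∃ R' : Interp S ar (Fin n'), SatM φ R' ∧
        ∀ t' Q, Q * t' + r < q → FamR R' Q t' → FamR R Q t')
    (hdown : ∀ (V : Type) [Fintype V] (R : Interp S ar V), SatM φ R → ∀ q t : ℕ,
      2 ^ (c * (t + 1)) ≤ q → ∀ u : Fin q × Fin t → V, Hm R u → ∀ (i : Fin q) [Fintype (off u i)],
        SatM φ (rs R (off u i)))
    {n₀ : ℕ} (hfam : ∀ n, n₀ ≤ n → ∀ R : Interp S ar (Fin n), SatM φ R →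
      ∃ t, 1 ≤ t ∧ FamR R (2 ^ ((c + 2) * t) * lam n ^ 2) t) : FamBdd φ := by
  obtain ⟨K, hK1, hKc, n₁, hK⟩ := bounded_famM φ hrem hfam
  obtain ⟨N, hN⟩ : ∃ N, N = 4 * K + r + 10 := ⟨_, rfl⟩
  have hcls : ∀ (V : Type) (R : Interp S ar V), Finite V → (∃ _ : Fintype V, SatM φ R) →
      Nat.card (Quot (Rl R K N)) ≤ n₁ := by
    intro V R hV hR
    refine cls_bddV har (by omega) (fun V R => ∃ _ : Fintype V, SatM φ R)
      (fun t => 2 ^ (c * (t + 1))) (fun t t' h => Nat.pow_le_pow_right (by norm_num)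
        (Nat.mul_le_mul_left _ (by omega))) ?_ ?_ V R hV hR
    · intro V R hV hR hcard
      obtain ⟨_, hR⟩ := hR
      rw [Nat.card_eq_fintype_card] at hcard
      let e : V ≃ Fin (Fintype.card V) := Fintype.equivFin V
      obtain ⟨t, ht1, htk, u, hu⟩ := hK _ hcard (fun s w => R s (e.symm ∘ w))
        ((satM_equiv φ e R).2 hR)
      have h1 : N ≤ 2 ^ ((c + 2) * t) * (4 * K + r + 10) := by
        rw [hN]
        exact Nat.le_mul_of_pos_left _ (by positivity)
      have h2 : 2 ^ (c * (t + 1)) ≤ 2 ^ ((c + 2) * t) * (4 * K + r + 10) := by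
        calc 2 ^ (c * (t + 1)) = 2 ^ (c * t) * 2 ^ c := by rw [← pow_add]; ring_nf
          _ ≤ 2 ^ ((c + 2) * t) * (4 * K + r + 10) := by
            refine Nat.mul_le_mul (Nat.pow_le_pow_right (by norm_num) (Nat.mul_le_mul_right _ (by omega))) ?_
            omega
      exact ⟨t, ht1, htk, _, h1, h2, _, hm_map (R := fun s w => R s (e.symm ∘ w)) (R' := R) e.symm
        (fun s w => Iff.rfl) hu⟩
    · intro V R hV hR q t hq u hu i
      obtain ⟨_, hR⟩ := hR
      have hf : Finite (off u i) := Subtype.finite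
      exact ⟨Fintype.ofFinite _, @hdown V _ R hR q t hq u hu i (Fintype.ofFinite _)⟩
  obtain ⟨D, hDc⟩ := count_dec (S := S) (ar := ar) K n₁ (by omega)
  refine famBdd_of_not _ (not_growthC (K := K) (D := D) (by omega) (fun n hn => ?_))
  refine le_trans (Nat.pow_le_pow_left ?_ K) (hDc n hn)
  refine Nat.card_le_card_of_injective
    (fun R : {R : Interp S ar (Fin n) // SatM φ R} => (⟨R.1,
      dec_of har (by omega) (by omega)
        (hcls (Fin n) R.1 inferInstance ⟨inferInstance, R.2⟩)⟩ :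
      {R : Interp S ar (Fin n) // Dec R K n₁})) ?_
  intro R R' h
  exact Subtype.ext (congrArg (fun x : {R : Interp S ar (Fin n) // Dec R K n₁} => x.1) h)

end Pool.Agent.Helper53.AJ
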