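import Pool.Agent.Helper29.ME.Rem
import Pool.Agent.Helper58.ME.Fam
import Pool.Agent.Helper40.EA.KeyM
import Pool.Agent.Helper6.EA.Final
import Pool.Agent.Helper83.EA.NumM

/-!
# ME4: few models of a monadic second-order sentence give families of bounded size, without hypotheses
-/

set_option autoImplicit false

namespace Pool.Agent.Helper58.ME

open FirstOrder FirstOrder.Language Pool.Agent.Helper20.Spectra Pool.Agent.Helper31.QD Pool.Agent.Helper38.MC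
  Pool.Agent.Helper29.MW Pool.Agent.Helper6.MC Pool.Agent.Helper14.SS
open Pool.Agent.Helper40.MCM
open Pool.Agent.Helper53.AJ (Hm off rs exists_ar)
open Pool.Agent.Helper29.ME (pumpXMb removeM)

variable {S : Type} {ar : S → ℕ}

/-- removing a block -/
theorem remM [Finite S] (φ : SFm (RelLang S ar) 0 0) : ∃ c : ℕ, ∀ (n q t : ℕ) (R : Interp S ar (Fin n)),
    SatM φ R → FamR R (q + 1) t → 2 ^ (c * (t + 1)) ≤ q → ∃ n', n' + t = n ∧
      ∃ R' : Interp S ar (Fin n'), SatM φ R' ∧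
        ∀ t' Q r, (∀ s, ar s ≤ r) → Q * t' + r < q → FamR R' Q t' → FamR R Q t' := by
  classical
  obtain ⟨ψ, hψ⟩ := exists_mfm φ
  obtain ⟨c, hc⟩ := pumpXMb ψ
  refine ⟨c, ?_⟩
  intro n q t R hM hF hq
  have hF' : Pool.Agent.Helper38.MC.FamA R t (q + 1) := hF
  obtain ⟨N, hN, e, hinv⟩ := Pool.Agent.Helper38.MC.decomp hF'
  rw [hψ] at hM
  have hM0 : MSat (fun s w => R s (e ∘ w)) ψ := (MSat.iso R e.symm ψ).1 hM
  have h1 := (hc t N (Fin (q + 1)) (Fin q) (fun s w => R s (e ∘ w)) hinv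
    (by rw [Nat.card_eq_fintype_card, Fintype.card_fin]; omega)
    (by rw [Nat.card_eq_fintype_card, Fintype.card_fin]; omega)).1 hM0
  have hE : ext (fun s w => R s (e ∘ w)) (Fin q) =
      (fun s (w : Fin (ar s) → N ⊕ Fin q × Fin t) => R s (e ∘ (mp Fin.castSucc ∘ w))) := by
    funext s w
    apply propext
    constructor
    · rintro ⟨g, hg1, hg2⟩
      exact (inv_choice (R := fun s w => R s (e ∘ w)) hinv w hg1
        ((Fin.castSucc_injective q).injOn)).1 hg2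
    · intro h
      exact ⟨Fin.castSucc, (Fin.castSucc_injective q).injOn, h⟩
  rw [hE] at h1
  have hc' : Fintype.card (N ⊕ Fin q × Fin t) + t = n := by
    have h2 := Fintype.card_congr e
    rw [Fintype.card_sum, Fintype.card_prod, Fintype.card_fin, Fintype.card_fin,
      Fintype.card_fin] at h2
    rw [Fintype.card_sum, Fintype.card_prod, Fintype.card_fin, Fintype.card_fin, ← h2]
    ring
  obtain ⟨n', hn'⟩ : ∃ n', n' = Fintype.card (N ⊕ Fin q × Fin t) := ⟨_, rfl⟩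
  let e2 : N ⊕ Fin q × Fin t ≃ Fin n' := Fintype.equivFinOfCardEq hn'.symm
  refine ⟨n', by omega, fun s w => R s (e ∘ (mp Fin.castSucc ∘ (e2.symm ∘ w))), ?_, ?_⟩
  · rw [hψ]
    exact (MSat.iso _ e2 ψ).1 h1
  · intro t' Q r har hQ hF2
    have hF3 : Pool.Agent.Helper38.MC.FamA
      (fun s w => R s (e ∘ (mp Fin.castSucc ∘ (e2.symm ∘ w)))) t' Q := hF2
    have h3 := hF3.equiv e2
    have e3 : (fun (s : S) (w : Fin (ar s) → N ⊕ Fin q × Fin t) =>
        R s (e ∘ (mp Fin.castSucc ∘ (e2.symm ∘ (e2 ∘ w))))) =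
        fun s w => R s (e ∘ (mp Fin.castSucc ∘ w)) := by
      funext s w
      have : e2.symm ∘ (e2 ∘ w) = w := by
        funext a
        exact e2.symm_apply_apply (w a)
      rw [this]
    rw [e3] at h3
    have h4 := Pool.Agent.Helper38.MC.lift_fam (R := fun s w => R s (e ∘ w)) har hinv hQ h3
    have h5 := h4.equiv e.symm
    have e4 : (fun (s : S) (w : Fin (ar s) → Fin n) => R s (e ∘ (e.symm ∘ w))) = R := by
      funext s w
      have : e ∘ (e.symm ∘ w) = w := by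
        funext a
        exact e.apply_symm_apply (w a)
      rw [this]
    rw [e4] at h5
    exact h5

/-- the key with the bound `G C n` for the number of automorphisms -/
def KeyG (G : ℕ → ℕ → ℕ) : Prop := ∀ r a : ℕ, ∃ C n₀ : ℕ, ∀ n, n₀ ≤ n → ∀ (S : Type) (ar : S → ℕ),
    (∀ s, ar s ≤ r) → ∀ R : Interp S ar (Fin n),
    (∀ t, 1 ≤ t → ¬ FamR R (2 ^ (a * t) * lam n ^ 2) t) → Nat.card (AuG R) ≤ G C n

/-- ME4 over the key, general form -/
theorem famBddM_gen {G : ℕ → ℕ → ℕ} (hG : ∀ C, ∃ n₁, ∀ n, n₁ ≤ n → G C n < G (C + 1) n) (hKey : KeyG G)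
    (S : Type) [Finite S] (ar : S → ℕ) (φ : SFm (RelLang S ar) 0 0) : ∃ C : ℕ,
      (∀ᶠ n : ℕ in Filter.atTop, countM φ n * G C n ≤ n.factorial) → FamBdd φ := by
  obtain ⟨r, hr⟩ := exists_ar ar
  obtain ⟨c₁, hc₁⟩ := remM φ
  obtain ⟨c₂, hc₂, -⟩ := removeM φ
  obtain ⟨c, hc⟩ : ∃ c, c = max c₁ (c₂ + 1) := ⟨_, rfl⟩
  have hcc₁ : c₁ ≤ c := by rw [hc]; exact le_max_left _ _
  have hcc₂ : c₂ + 1 ≤ c := by rw [hc]; exact le_max_right _ _
  obtain ⟨C, n₀, hC⟩ := hKey r (c + 2)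
  refine ⟨C + 1, fun hcount => ?_⟩
  obtain ⟨n₁, hn₁⟩ := Filter.eventually_atTop.1 hcount
  obtain ⟨n₂, hn₂⟩ := hG C
  refine Pool.Agent.Helper53.AJ.famBdd_of_fam (r := r) (c := c) hr φ ?_ ?_ (n₀ := max (max n₀ n₁) n₂) ?_
  · intro n q t R hR hF hq
    obtain ⟨n', h1, R', h2, h3⟩ := hc₁ n q t R hR hF
      ((Nat.pow_le_pow_right (by norm_num) (Nat.mul_le_mul_right _ hcc₁)).trans hq)
    exact ⟨n', h1, R', h2, fun t' Q h => h3 t' Q r hr h⟩
  · intro V _ R hR q t hq u hu i _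
    refine hc₂ V R hR q t (lt_of_lt_of_le ?_ hq) u hu i
    refine Nat.pow_lt_pow_right (by norm_num) ?_
    calc c₂ * (t + 1) < (c₂ + 1) * (t + 1) := Nat.mul_lt_mul_of_pos_right (Nat.lt_succ_self _) (Nat.succ_pos t)
      _ ≤ c * (t + 1) := Nat.mul_le_mul_right _ hcc₂
  · intro n hn R hR
    by_contra hcon
    push Not at hcon
    have hn0 : n₀ ≤ n := (le_max_left _ _).trans ((le_max_left _ _).trans hn)
    have hn1 : n₁ ≤ n := (le_max_right _ _).trans ((le_max_left _ _).trans hn)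
    have hn2 : n₂ ≤ n := (le_max_right _ _).trans hn
    have h0 := hC n hn0 S ar hr R hcon
    have h1 := hn₁ n hn1
    have h2 : n.factorial ≤ countM φ n * Nat.card (AuG R) := factorial_leM hR
    have h3 : 0 < countM φ n := by
      have h4 := n.factorial_pos.trans_le h2
      exact Nat.pos_of_mul_pos_right h4
    have h5 := Nat.le_of_mul_le_mul_left (h1.trans h2) h3
    have h6 := hn₂ n hn2
    omega

/-- ME4 over the key -/
theorem famBddM_of (hKey : Pool.Agent.Helper6.EA.StmtKeyM) (S : Type) [Finite S] (ar : S → ℕ)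
    (φ : SFm (RelLang S ar) 0 0) : ∃ C : ℕ, (∀ᶠ n : ℕ in Filter.atTop,
      countM φ n * 2 ^ (C * n * (Nat.log 2 (Nat.log 2 n + 1) + 1) ^ 2) ≤ n.factorial) → FamBdd φ := by
  refine famBddM_gen (G := fun C n => 2 ^ (C * n * (Nat.log 2 (Nat.log 2 n + 1) + 1) ^ 2))
    (fun C => ⟨1, fun n hn => Nat.pow_lt_pow_right (by norm_num) ?_⟩) hKey S ar φ
  obtain ⟨L, hL⟩ : ∃ L, L = (Nat.log 2 (Nat.log 2 n + 1) + 1) ^ 2 := ⟨_, rfl⟩
  rw [← hL]
  have hL1 : 1 ≤ L := by rw [hL]; exact Nat.one_le_pow _ _ (Nat.succ_pos _)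
  have h8 : (C + 1) * n * L = C * n * L + n * L := by ring
  have h9 : 1 ≤ n * L := Nat.mul_pos hn hL1
  omega

/-- the same with the bound `(log n) ^ (C n)`, for the sharper key -/
theorem famBddM_lam (hKey : KeyG (fun C n => 2 ^ (C * n * (Nat.log 2 (Nat.log 2 n + 1) + 1)))) (S : Type)
    [Finite S] (ar : S → ℕ) (φ : SFm (RelLang S ar) 0 0) : ∃ C : ℕ, (∀ᶠ n : ℕ in Filter.atTop,
      countM φ n * (Nat.log 2 n + 1) ^ (C * n) ≤ n.factorial) → FamBdd φ := by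
  obtain ⟨C, hC⟩ := famBddM_gen (G := fun C n => 2 ^ (C * n * (Nat.log 2 (Nat.log 2 n + 1) + 1)))
    (fun C => ⟨1, fun n hn => Nat.pow_lt_pow_right (by norm_num) (by
      obtain ⟨L, hL⟩ : ∃ L, L = (Nat.log 2 (Nat.log 2 n + 1) + 1) := ⟨_, rfl⟩
      rw [← hL]
      have hL1 : 1 ≤ L := by omega
      have h8 : (C + 1) * n * L = C * n * L + n * L := by ring
      have h9 : 1 ≤ n * L := Nat.mul_pos hn hL1
      omega)⟩) hKey S ar φ
  refine ⟨2 * C, fun h => hC ?_⟩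
  filter_upwards [h, Filter.eventually_ge_atTop 2] with n hn hn2
  refine le_trans (Nat.mul_le_mul_left _ ?_) hn
  obtain ⟨l, hl⟩ : ∃ l, l = Nat.log 2 n + 1 := ⟨_, rfl⟩
  have hl2 : 2 ≤ l := by
    have h1 : 1 ≤ Nat.log 2 n := Nat.log_pos (by norm_num) hn2
    omega
  rw [← hl]
  have h1 : 2 ^ (Nat.log 2 l + 1) ≤ l ^ 2 := by
    calc 2 ^ (Nat.log 2 l + 1) = 2 ^ Nat.log 2 l * 2 := pow_succ _ _
      _ ≤ l * l := Nat.mul_le_mul (Nat.pow_log_le_self 2 (by omega)) hl2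
      _ = l ^ 2 := by ring
  calc 2 ^ (C * n * (Nat.log 2 l + 1)) = (2 ^ (Nat.log 2 l + 1)) ^ (C * n) := by
        rw [← pow_mul]
        congr 1
        ring
    _ ≤ (l ^ 2) ^ (C * n) := Nat.pow_le_pow_left h1 _
    _ = l ^ (2 * C * n) := by
        rw [← pow_mul]
        congr 1
        ring

/-- ME4 -/
theorem famBddM (S : Type) [Finite S] (ar : S → ℕ) (φ : SFm (RelLang S ar) 0 0) : ∃ C : ℕ,
    (∀ᶠ n : ℕ in Filter.atTop,
      countM φ n * 2 ^ (C * n * (Nat.log 2 (Nat.log 2 n + 1) + 1) ^ 2) ≤ n.factorial) → FamBdd φ :=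
  famBddM_of (Pool.Agent.Helper6.EA.keyM2_of Pool.Agent.Helper6.EA.stepAll
    Pool.Agent.Helper6.EA.stmtNumM Pool.Agent.Helper6.EA.cardGA) S ar φ

end Pool.Agent.Helper58.ME
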